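import Mathlib
import Pool.Agent.Lib.MP_dbb15e_gt.TwoSided

/-!
# The Euclidean distortion of a union: the function is of order `D_A * D_B`
-/

set_option autoImplicit false

namespace Pool.Agent.Results.MP_dbb15e_gt.TightBounds

open Pool.Agent.Lib.MP_dbb15e_gt

theorem result :
    ∃ c C : ℝ, 0 < c ∧ 0 < C ∧ ∀ DA DB : ℝ, 1 ≤ DA → 1 ≤ DB →
      c * DA * DB ≤ unionDistortion DA DB ∧ unionDistortion DA DB ≤ C * DA * DB :=
  ⟨1 / 10 ^ 15, 162, by norm_num, by norm_num, fun DA DB hA hB => two_sided DA DB hA hB⟩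

end Pool.Agent.Results.MP_dbb15e_gt.TightBounds
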